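import Pool.Agent.N520.SV.Stm

/-! Cones over singular simplices in a vector space. -/

set_option autoImplicit false

open Set Filter Topology

namespace Pool.Agent.N951.SV

open Pool.Agent.N520.SV

lemma face_succAbove {k : ℕ} (i : Fin (k + 2)) (p : Sx k) (j : Fin (k + 1)) :
    (face i p).1 (i.succAbove j) = p.1 j := by
  change (stdSimplex.map i.succAbove p : Fin (k + 2) → ℝ) (i.succAbove j) = p.1 j
  rw [stdSimplex.map_coe, FunOnFinite.linearMap_apply_apply]
  have : (Finset.univ.filter fun x : Fin (k + 1) => i.succAbove x = i.succAbove j) = {j} := by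
    ext x
    simp
  rw [this, Finset.sum_singleton]
  rfl

lemma face_self {k : ℕ} (i : Fin (k + 2)) (p : Sx k) : (face i p).1 i = 0 := by
  change (stdSimplex.map i.succAbove p : Fin (k + 2) → ℝ) i = 0
  rw [stdSimplex.map_coe, FunOnFinite.linearMap_apply_apply]
  have : (Finset.univ.filter fun x : Fin (k + 1) => i.succAbove x = i) = ∅ := by
    ext x
    simp [Fin.succAbove_ne]
  rw [this, Finset.sum_empty]

/-- the normalized tail -/
noncomputable def tl {k : ℕ} (t : Sx (k + 1)) : Sx k :=
  open Classical in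
  if h : t.1 0 ≠ 1 then ⟨fun i => t.1 i.succ / (1 - t.1 0), by
    have hs : ∑ i, t.1 i = 1 := t.2.2
    rw [Fin.sum_univ_succ] at hs
    have h1 : 0 ≤ 1 - t.1 0 := by
      have : 0 ≤ ∑ i : Fin (k + 1), t.1 i.succ := Finset.sum_nonneg fun i _ => t.2.1 _
      linarith
    refine ⟨fun i => div_nonneg (t.2.1 _) h1, ?_⟩
    rw [← Finset.sum_div, div_eq_one_iff_eq (fun h' => h (by linarith))]
    linarith⟩
  else ⟨Pi.single 0 1, single_mem_stdSimplex ℝ 0⟩

lemma tl_apply {k : ℕ} (t : Sx (k + 1)) (h : t.1 0 ≠ 1) (i : Fin (k + 1)) :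
    (tl t).1 i = t.1 i.succ / (1 - t.1 0) := by
  unfold tl
  rw [dif_pos h]

lemma tl_cont {k : ℕ} (t : Sx (k + 1)) (h : t.1 0 ≠ 1) :
    ContinuousAt (tl : Sx (k + 1) → Sx k) t := by
  rw [Topology.IsInducing.subtypeVal.continuousAt_iff]
  have h0 : Continuous fun t : Sx (k + 1) => t.1 0 := (continuous_apply 0).comp continuous_subtype_val
  have hop : ∀ᶠ u : Sx (k + 1) in 𝓝 t, u.1 0 ≠ 1 := h0.continuousAt.eventually_ne h
  have he : (fun u : Sx (k + 1) => fun i : Fin (k + 1) => u.1 i.succ / (1 - u.1 0)) =ᶠ[𝓝 t]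
      (Subtype.val ∘ tl) := by
    filter_upwards [hop] with u hu
    funext i
    exact (tl_apply u hu i).symm
  refine ContinuousAt.congr ?_ he
  rw [continuousAt_pi]
  intro i
  refine ContinuousAt.div ?_ ?_ (sub_ne_zero.2 (Ne.symm h))
  · exact ((continuous_apply i.succ).comp continuous_subtype_val).continuousAt
  · exact (continuous_const.sub h0).continuousAt

section
variable {E : Type} [NormedAddCommGroup E] [NormedSpace ℝ E]

lemma cone_cont {k : ℕ} (b : E) (s : C(Sx k, E)) :
    Continuous fun t : Sx (k + 1) => AffineMap.lineMap b (s (tl t)) (1 - t.1 0) := by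
  have h0 : Continuous fun t : Sx (k + 1) => t.1 0 := (continuous_apply 0).comp continuous_subtype_val
  rw [continuous_iff_continuousAt]
  intro t
  by_cases h : t.1 0 = 1
  · simp only [AffineMap.lineMap_apply_module']
    have hlim : Tendsto (fun u : Sx (k + 1) => (1 - u.1 0) • (s (tl u) - b)) (𝓝 t) (𝓝 0) := by
      have h1 : Tendsto (fun u : Sx (k + 1) => (1 - u.1 0)) (𝓝 t) (𝓝 0) := by
        have h2 : Tendsto (fun u : Sx (k + 1) => (1 - u.1 0)) (𝓝 t) (𝓝 (1 - t.1 0)) :=
          tendsto_const_nhds.sub (h0.tendsto t)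
        rwa [h, sub_self] at h2
      refine squeeze_zero_norm (a := fun u : Sx (k + 1) => |1 - u.1 0| * (‖s‖ + ‖b‖)) ?_ ?_
      · intro u
        rw [norm_smul, Real.norm_eq_abs]
        gcongr
        refine (norm_sub_le _ _).trans ?_
        gcongr
        exact ContinuousMap.norm_coe_le_norm s _
      · have := (h1.abs).mul_const (‖s‖ + ‖b‖)
        simpa using this
    have := hlim.add_const b
    rw [zero_add] at this
    change Tendsto _ (𝓝 t) (𝓝 ((1 - t.1 0) • (s (tl t) - b) + b))
    rw [h, sub_self, zero_smul, zero_add]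
    exact this
  · simp only [AffineMap.lineMap_apply_module']
    refine ContinuousAt.add (ContinuousAt.smul ?_ (ContinuousAt.sub ?_ continuousAt_const))
      continuousAt_const
    · exact (continuous_const.sub h0).continuousAt
    · exact s.continuous.continuousAt.comp (tl_cont t h)

end

theorem t_cone : S_CONE := by
  intro E _ _ _
  refine ⟨fun k b s => ⟨fun t => AffineMap.lineMap b (s (tl t)) (1 - t.1 0), cone_cont b s⟩,
    ?_, ?_, ?_⟩
  · intro k b s
    ext p
    change AffineMap.lineMap b (s (tl (face 0 p))) (1 - (face 0 p).1 0) = s p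
    have h0 : (face 0 p).1 0 = 0 := face_self 0 p
    have h1 : tl (face 0 p) = p := by
      apply Subtype.ext
      funext i
      rw [tl_apply _ (by rw [h0]; norm_num), h0, sub_zero, div_one]
      have := face_succAbove 0 p i
      rwa [Fin.succAbove_zero] at this
    rw [h1, h0, sub_zero, AffineMap.lineMap_apply_one]
  · intro k b s i
    ext t
    change AffineMap.lineMap b (s (tl (face i.succ t))) (1 - (face i.succ t).1 0) =
      AffineMap.lineMap b (s (face i (tl t))) (1 - t.1 0)
    have h0 : (face i.succ t).1 0 = t.1 0 := by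
      have := face_succAbove i.succ t 0
      rwa [Fin.succ_succAbove_zero] at this
    rw [h0]
    by_cases h : t.1 0 = 1
    · rw [h, sub_self, AffineMap.lineMap_apply_zero, AffineMap.lineMap_apply_zero]
    · have h1 : tl (face i.succ t) = face i (tl t) := by
        apply Subtype.ext
        funext j
        rw [tl_apply _ (by rw [h0]; exact h), h0]
        rcases Fin.eq_self_or_eq_succAbove i j with hj | ⟨l, hl⟩
        · rw [hj, face_self, face_self, zero_div]
        · rw [hl, face_succAbove, tl_apply _ h, ← Fin.succ_succAbove_succ, face_succAbove]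
      rw [h1]
  · intro g k b s s' hs p
    change AffineMap.lineMap (g b) (s' (tl p)) (1 - p.1 0) =
      g (AffineMap.lineMap b (s (tl p)) (1 - p.1 0))
    rw [hs]
    exact (AffineMap.apply_lineMap (g : E →ᵃ[ℝ] E) b (s (tl p)) (1 - p.1 0)).symm

end Pool.Agent.N951.SV
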